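import Pool.Agent.Q211.TP.Cdl

/-!
# A non-N-compact space whose `c_δ`-ultrafilters with the countable intersection property are fixed

The model is a symmetric extension of permutation type. The atoms are the pairs in `ℕ × ℤ`, the
group consists of the sequences of translations of the blocks `{n} × ℤ`, and the supports are the
finite unions of blocks. The space `X` is a linearly ordered space: the nodes `0, 1, 2, …`, and
between the nodes `n` and `n + 1` the block `n` in its natural order. A `c_δ`-ultrafilter `F`
decides the clopen sets `{x | a ≤ x}` for the atoms `a`. If `F` contains all of them, then it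
contains the final segment beyond every node, since this segment is a countable intersection of
clopen sets, and `F` does not have the countable intersection property. Otherwise the cut defined
by `F` is given by a point, and `F` is fixed. Every continuous function from `X` to the natural
numbers is eventually constant, and therefore `X` is not `ℕ`-compact.
-/

set_option autoImplicit false

namespace Pool.Agent.Results.MP_6a4164_lc.FixedNotNCompact

open Pool.Agent.W868 Pool.Agent.W868.PName Pool.Agent.Q211.SY Pool.Agent.Q211.FS
open Pool.Agent.Q211.TP

/-- There is a countable transitive model of ZF with a zero-dimensional `T₁` space in which every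
`c_δ`-ultrafilter with the countable intersection property is fixed, but which is not
`ℕ`-compact. -/
theorem result : ∃ M : Set ZFSet.{0}, M.Countable ∧ IsZF M ∧
    ∃ X ∈ M, ∃ τ ∈ M, IsTopIn M X τ ∧ ZeroDim X τ ∧
      (∀ F, IsUltra M (IsCdelta M X τ) F → HasCIP M F → Fixed F) ∧ ¬ NatCompactIn M X τ := by
  obtain ⟨M, pt, c, X, K, R, BL, h⟩ := exists_chn ℤ int_homog ∅ Set.countable_empty
    (fun z hz => absurd hz (Set.notMem_empty z))
  have hM := h.zf
  have hB := h.exists_B
  obtain ⟨τ, hτM, hτ⟩ := exists_gen hM hB.1 h.KM h.RM
  have htop := hτ.top hM hB.1
  exact ⟨M, h.cnt, hM, _, hB.1, τ, hτM, htop, hτ.zeroDim hM hB.1 h.KM h.RM (h.hsep hB),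
    fun F hF hcip => h.ultra_fixed hB hτM hτ (fam_cdelta hM hB.1 hτM htop)
      (fun n T hT => h.fin_cdelta hB hτM hτ n hT) hF hcip,
    h.not_ecompact hB hτM hτ flat_omega (goodE_nat hM)⟩

end Pool.Agent.Results.MP_6a4164_lc.FixedNotNCompact
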